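import Pool.Agent.Helper757.TCDecayG

/-! # DECAY part of MP_e53872_an: final statement (helper757) -/

open scoped ComplexConjugate InnerProductSpace

namespace Pool.TC.Dec

open Pool.TC

/-! ### phases -/

theorem re_lt_one {v : ℂ} (h : ‖v‖ = 1) (h1 : v ≠ 1) : v.re < 1 := by
  have h2 : v.re ≤ 1 := h ▸ Complex.re_le_norm v
  refine lt_of_le_of_ne h2 fun he => h1 ?_
  have h3 : v.re ^ 2 + v.im ^ 2 = 1 := by
    have := Complex.sq_norm v
    rw [h, Complex.normSq_apply] at this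
    nlinarith
  have h4 : v.im = 0 := by
    rw [he] at h3
    nlinarith [sq_nonneg v.im, pow_eq_zero_iff (n := 2) (a := v.im) (by norm_num)]
  exact Complex.ext (by simpa using he) (by simpa using h4)

theorem ee_add (s t : ℝ) : ee (s + t) = ee s * ee t := by
  unfold ee
  rw [← Complex.exp_add]
  congr 1; push_cast; ring

theorem ee_zero : ee 0 = 1 := by simp [ee]

theorem norm_ee (t : ℝ) : ‖ee t‖ = 1 := by
  unfold ee
  rw [Complex.norm_exp]
  simp

theorem ee_eq_one {t : ℝ} (h : ee t = 1) : ∃ n : ℤ, t = n := by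
  unfold ee at h
  rw [Complex.exp_eq_one_iff] at h
  obtain ⟨n, hn⟩ := h
  refine ⟨n, ?_⟩
  have h2 : (2 * Real.pi * Complex.I : ℂ) ≠ 0 := Complex.two_pi_I_ne_zero
  have h3 : ((t : ℂ) - n) * (2 * Real.pi * Complex.I) = 0 := by
    linear_combination hn
  have h4 := (mul_eq_zero.1 h3).resolve_right h2
  have h5 : (t : ℂ) = ((n : ℝ) : ℂ) := by
    rw [sub_eq_zero] at h4
    rw [h4]; push_cast; rfl
  exact_mod_cast h5

theorem goodPh (j : ℕ) (hj : ¬ 3 ∣ j) : ∃ γ, GoodPh (ee (j / 9)) γ := by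
  set ζ := ee (j / 9) with hζ
  have hn : ‖ζ‖ = 1 := norm_ee _
  have hu : conj ζ * ζ = 1 := by
    rw [mul_comm, Complex.mul_conj, Complex.normSq_eq_norm_sq, hn]; simp
  have s3 : √3 * √3 = 3 := Real.mul_self_sqrt (by norm_num)
  have h6 : (ζ ^ 2) ^ 3 ≠ 1 := by
    intro h
    have e : (ζ ^ 2) ^ 3 = ee (2 * j / 3) := by
      have : (2 * (j : ℝ) / 3) = j / 9 + (j / 9 + (j / 9 + (j / 9 + (j / 9 + j / 9)))) := by ring
      rw [this, ee_add, ee_add, ee_add, ee_add, ee_add, ← hζ]; ring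
    rw [e] at h
    obtain ⟨n, hn⟩ := ee_eq_one h
    have h2 : (2 * j : ℤ) = 3 * n := by
      have : (2 * (j : ℝ)) = 3 * n := by linarith
      exact_mod_cast this
    exact hj (by omega)
  have cube : ∀ w : ℂ, w ^ 3 = 1 → ζ ^ 2 * w ≠ 1 := by
    intro w hw h
    apply h6
    have : (ζ ^ 2 * w) ^ 3 = 1 := by rw [h, one_pow]
    rw [mul_pow, hw, mul_one] at this
    exact this
  have w1 : (⟨-1/2, √3/2⟩ : ℂ) ^ 3 = 1 := by
    rw [pow_succ, pow_two]
    apply Complex.ext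
    · simp
      linear_combination (3 / 8 : ℝ) * s3
    · simp
      linear_combination (-√3 / 8) * s3
  have w2 : (⟨-1/2, -(√3/2)⟩ : ℂ) ^ 3 = 1 := by
    rw [pow_succ, pow_two]
    apply Complex.ext
    · simp
      linear_combination (3 / 8 : ℝ) * s3
    · simp
      linear_combination (√3 / 8) * s3
  have nw : ∀ w : ℂ, w ^ 3 = 1 → ‖w‖ = 1 := fun w hw => by
    have : ‖w‖ ^ 3 = 1 := by rw [← norm_pow, hw, norm_one]
    exact (pow_eq_one_iff_of_nonneg (norm_nonneg _) (by norm_num)).1 this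
  have a0 : (ζ ^ 2).re < 1 := re_lt_one (by rw [norm_pow, hn, one_pow]) (by
    have := cube 1 (by norm_num); rwa [mul_one] at this)
  have a1 : (ζ ^ 2 * (⟨-1/2, √3/2⟩ : ℂ)).re < 1 :=
    re_lt_one (by rw [norm_mul, norm_pow, hn, one_pow, one_mul]; exact nw _ w1) (cube _ w1)
  have a2 : (ζ ^ 2 * (⟨-1/2, -(√3/2)⟩ : ℂ)).re < 1 :=
    re_lt_one (by rw [norm_mul, norm_pow, hn, one_pow, one_mul]; exact nw _ w2) (cube _ w2)
  refine ⟨max (max (ζ ^ 2).re (ζ ^ 2 * (⟨-1/2, √3/2⟩ : ℂ)).re) (ζ ^ 2 * (⟨-1/2, -(√3/2)⟩ : ℂ)).re,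
    hu, hn, ?_, ?_, ?_, ?_, ?_⟩
  · exact (le_max_left _ _).trans (le_max_left _ _)
  · exact (le_max_right _ _).trans (le_max_left _ _)
  · exact le_max_right _ _
  · exact max_lt (max_lt a0 a1) a2
  · refine le_trans ?_ ((le_max_left _ _).trans (le_max_left _ _))
    have h1 := Complex.abs_re_le_norm (ζ ^ 2)
    rw [norm_pow, hn, one_pow] at h1
    exact (abs_le.1 h1).1

variable {A : Type} [CommRing A] [StarRing A] [Algebra ℂ A] [StarModule ℂ A] [PSys A]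

theorem norm_Aw_sq {R : ℕ → Type} [∀ n, Fintype (R n)] [∀ n, Nonempty (R n)] {δ : ℝ} (L : ℕ → ℤ)
    (ρ : ∀ n, R n → ℤ) (hρ : ∀ n, NI (ρ n) δ) {ζ : ℂ} {γ : ℝ}
    (hζ : GoodPh ζ γ) {f₁ f₂ : A} (h₁ : f₁ ∈ (PSys.ball : Set A)) (h₂ : f₂ ∈ (PSys.ball : Set A))
    (G : ℕ) [NeZero G] (n : ℕ) (c : ℤ) :
    ‖Aw L ρ ζ f₁ f₂ n c‖ ^ 2 ≤ n * (2 * G * δ) +
      √(((3 + γ) / 4) ^ n + n * ((3 * G + 2) * δ + 1 / G)) := by
  obtain ⟨Ω, i1, i2, sg, sg', V, hV, hb, hi, hii⟩ := state_exists L ρ hρ hζ h₁ h₂ G n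
  have h0 : ‖Aw L ρ ζ f₁ f₂ n c‖ ^ 2 = (⟪Aw L ρ ζ f₁ f₂ n c, Aw L ρ ζ f₁ f₂ n c⟫_ℂ).re := by
    have := inner_self_eq_norm_sq (𝕜 := ℂ) (Aw L ρ ζ f₁ f₂ n c)
    exact this.symm
  rw [h0]
  refine (Complex.re_le_norm _).trans ?_
  have h1 := hi c c
  set P := avg fun ω => pr (V0 f₁ f₂) (V ω) (sg ω + c) (sg' ω + c) with hP
  have h2 : ‖P‖ ≤ √(((3 + γ) / 4) ^ n + n * ((3 * G + 2) * δ + 1 / G)) := by
    have h3 : ‖P‖ ≤ avg fun ω => ‖V ω (sg' ω + c) (2 * sg ω + 2 * c)‖ := by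
      refine (norm_avg_le _).trans (avg_le_avg fun ω => ?_)
      unfold pr
      calc _ ≤ ‖V0 f₁ f₂ (sg ω + c) (2 * (sg' ω + c))‖ * ‖V ω (sg' ω + c) (2 * (sg ω + c))‖ :=
            norm_inner_le_norm _ _
        _ ≤ 1 * ‖V ω (sg' ω + c) (2 * (sg ω + c))‖ :=
            mul_le_mul_of_nonneg_right (norm_V0 h₁ h₂ _ _) (norm_nonneg _)
        _ = _ := by rw [one_mul, mul_add]
    have h4 : ‖P‖ ^ 2 ≤ ((3 + γ) / 4) ^ n + n * ((3 * G + 2) * δ + 1 / G) :=
      (pow_le_pow_left₀ (norm_nonneg _) h3 2).trans (avg_sq_le.trans (hii c (2 * c)))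
    exact Real.le_sqrt_of_sq_le h4
  have h5 := norm_sub_norm_le (⟪Aw L ρ ζ f₁ f₂ n c, Aw L ρ ζ f₁ f₂ n c⟫_ℂ) P
  linarith

/-- pulling out the levels below `N'` -/
theorem avg_eq_Aw (L : ℕ → ℤ) (f₁ f₂ : A) (j N' J : ℕ) (c : ℤ) :
    (avg fun ω : Om (N' + J) => ee (j * Wd ω / 9) •
      (PSys.tau (c + aval L ω) f₁ * PSys.tau (2 * (c + aval L ω)) f₂)) =
    avg fun ω : Om N' => ee (j * Wd ω / 9) •
      Aw (R := fun n => RR (N' + n)) (fun n => L (N' + n)) (fun n => rr (N' + n)) (ee (j / 9)) f₁ f₂ J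
        (c + aval L ω) := by
  induction J generalizing c with
  | zero => rfl
  | succ J ih =>
    have h1 := avgOm_succ L (N' + J) (fun k a => ee (j * k / 9) •
      (PSys.tau (c + a) f₁ * PSys.tau (2 * (c + a)) f₂))
    have h2 : (avg fun ω : Om (N' + (J + 1)) => ee (j * Wd ω / 9) •
      (PSys.tau (c + aval L ω) f₁ * PSys.tau (2 * (c + aval L ω)) f₂)) =
      avg fun d : Bool => avg fun y : RR (N' + J) => avg fun ω : Om (N' + J) =>
        ee (j * (Wd ω + (if d then 1 else 0) : ℕ) / 9) •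
      (PSys.tau (c + (aval L ω + (bv d + 3 * rr (N' + J) y) * L (N' + J))) f₁ *
        PSys.tau (2 * (c + (aval L ω + (bv d + 3 * rr (N' + J) y) * L (N' + J)))) f₂) := h1
    rw [h2]
    have h3 : ∀ (d : Bool) (y : RR (N' + J)), (avg fun ω : Om (N' + J) =>
        ee (j * (Wd ω + (if d then 1 else 0) : ℕ) / 9) •
      (PSys.tau (c + (aval L ω + (bv d + 3 * rr (N' + J) y) * L (N' + J))) f₁ *
        PSys.tau (2 * (c + (aval L ω + (bv d + 3 * rr (N' + J) y) * L (N' + J)))) f₂)) =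
        avg fun ω : Om N' => ee (j * Wd ω / 9) • (ph (ee (j / 9)) d •
          Aw (R := fun n => RR (N' + n)) (fun n => L (N' + n)) (fun n => rr (N' + n)) (ee (j / 9)) f₁ f₂ J
          ((c + aval L ω) + (bv d + 3 * rr (N' + J) y) * L (N' + J))) := by
      intro d y
      have h4 := ih (c + (bv d + 3 * rr (N' + J) y) * L (N' + J))
      have hph : ∀ k : ℕ, ee (j * (k + (if d then 1 else 0) : ℕ) / 9) = ph (ee (j / 9)) d * ee (j * k / 9) := by
        intro k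
        unfold ph
        cases d
        · simp
        · simp only [if_true]
          rw [← ee_add]
          congr 1; push_cast; ring
      have e1 : (avg fun ω : Om (N' + J) =>
        ee (j * (Wd ω + (if d then 1 else 0) : ℕ) / 9) •
      (PSys.tau (c + (aval L ω + (bv d + 3 * rr (N' + J) y) * L (N' + J))) f₁ *
        PSys.tau (2 * (c + (aval L ω + (bv d + 3 * rr (N' + J) y) * L (N' + J)))) f₂)) =
        ph (ee (j / 9)) d • (avg fun ω : Om (N' + J) => ee (j * Wd ω / 9) •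
        (PSys.tau (c + (bv d + 3 * rr (N' + J) y) * L (N' + J) + aval L ω) f₁ *
        PSys.tau (2 * (c + (bv d + 3 * rr (N' + J) y) * L (N' + J) + aval L ω)) f₂)) := by
        rw [csmul_avg]
        refine avg_congr fun ω => ?_
        rw [hph, mul_smul]
        have e5 : c + (aval L ω + (bv d + 3 * rr (N' + J) y) * L (N' + J)) =
          c + (bv d + 3 * rr (N' + J) y) * L (N' + J) + aval L ω := by ring
        rw [e5]
      rw [e1, h4, csmul_avg]
      refine avg_congr fun ω => ?_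
      rw [smul_comm]
      have e6 : c + (bv d + 3 * rr (N' + J) y) * L (N' + J) + aval L ω =
        (c + aval L ω) + (bv d + 3 * rr (N' + J) y) * L (N' + J) := by ring
      rw [e6]
    have h5 : (avg fun d : Bool => avg fun y : RR (N' + J) => avg fun ω : Om (N' + J) =>
        ee (j * (Wd ω + (if d then 1 else 0) : ℕ) / 9) •
      (PSys.tau (c + (aval L ω + (bv d + 3 * rr (N' + J) y) * L (N' + J))) f₁ *
        PSys.tau (2 * (c + (aval L ω + (bv d + 3 * rr (N' + J) y) * L (N' + J)))) f₂)) =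
      avg fun d : Bool => avg fun y : RR (N' + J) => avg fun ω : Om N' => ee (j * Wd ω / 9) •
        (ph (ee (j / 9)) d •
          Aw (R := fun n => RR (N' + n)) (fun n => L (N' + n)) (fun n => rr (N' + n)) (ee (j / 9)) f₁ f₂ J
          ((c + aval L ω) + (bv d + 3 * rr (N' + J) y) * L (N' + J))) :=
      avg_congr fun d => avg_congr fun y => h3 d y
    rw [h5]
    have h6 : ∀ d : Bool, (avg fun y : RR (N' + J) => avg fun ω : Om N' => ee (j * Wd ω / 9) •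
        (ph (ee (j / 9)) d •
          Aw (R := fun n => RR (N' + n)) (fun n => L (N' + n)) (fun n => rr (N' + n)) (ee (j / 9)) f₁ f₂ J
          ((c + aval L ω) + (bv d + 3 * rr (N' + J) y) * L (N' + J)))) =
        avg fun ω : Om N' => avg fun y : RR (N' + J) => ee (j * Wd ω / 9) •
        (ph (ee (j / 9)) d •
          Aw (R := fun n => RR (N' + n)) (fun n => L (N' + n)) (fun n => rr (N' + n)) (ee (j / 9)) f₁ f₂ J
          ((c + aval L ω) + (bv d + 3 * rr (N' + J) y) * L (N' + J))) := fun d => avg_comm _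
    rw [avg_congr h6, avg_comm]
    refine avg_congr fun ω => ?_
    have h7 : Aw (R := fun n => RR (N' + n)) (fun n => L (N' + n)) (fun n => rr (N' + n)) (ee (j / 9)) f₁ f₂
        (J + 1) (c + aval L ω) = avg fun d : Bool => avg fun y : RR (N' + J) =>
        ph (ee (j / 9)) d • Aw (R := fun n => RR (N' + n)) (fun n => L (N' + n)) (fun n => rr (N' + n))
          (ee (j / 9)) f₁ f₂ J ((c + aval L ω) + (bv d + 3 * rr (N' + J) y) * L (N' + J)) := rfl
    rw [h7, csmul_avg]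
    refine avg_congr fun d => ?_
    rw [csmul_avg]

end Pool.TC.Dec

namespace Pool.TC

open Pool.TC.Dec

variable {A : Type} [CommRing A] [StarRing A] [Algebra ℂ A] [StarModule ℂ A] [PSys A]

/-- DECAY -/
theorem decay (L : ℕ → ℤ) (f₁ f₂ : A) (h₁ : f₁ ∈ PSys.ball) (h₂ : f₂ ∈ PSys.ball)
    (j : ℕ) (hj : ¬ 3 ∣ j) (ε : ℝ) (hε : 0 < ε) :
    ∃ N₀, ∀ N ≥ N₀, ‖avg fun ω : Om N =>
      ee (j * Wd ω / 9) • (PSys.tau (aval L ω) f₁ * PSys.tau (2 * aval L ω) f₂)‖ ≤ ε := by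
  obtain ⟨γ, hγ⟩ := goodPh j hj
  set g := (3 + γ) / 4 with hg
  have hg1 : g < 1 := by have := hγ.lt1; rw [hg]; linarith
  have hg0 : 0 ≤ g := by have := hγ.gt; rw [hg]; linarith
  set η := (ε ^ 2 / 2) ^ 2 / 3 with hη
  have hη0 : 0 < η := by positivity
  obtain ⟨J, hJ⟩ := exists_pow_lt_of_lt_one hη0 hg1
  obtain ⟨G, hG⟩ := exists_nat_gt ((J : ℝ) / η)
  have hGpos : (0 : ℝ) < G := lt_of_le_of_lt (by positivity) hG
  have hGne : NeZero G := ⟨by rintro rfl; simp at hGpos⟩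
  -- the window parameter
  set δ₀ := min (ε ^ 2 / 2) η / (((J : ℝ) + 1) * (3 * G + 2)) with hδ₀
  have hδ₀pos : 0 < δ₀ := by positivity
  obtain ⟨M, hM⟩ := exists_nat_gt (2 / δ₀)
  have hδM : ∀ m ≥ M, (2 : ℝ) / Hw m 1 ≤ δ₀ := by
    intro m hm
    have h1 : (M : ℝ) ≤ Hw m 1 := by
      have h2 : m < 4 ^ m := Nat.lt_pow_self (by norm_num)
      have h3 : 4 ^ m ≤ Hw m 1 := by
        unfold Hw Q
        rw [← pow_mul]
        exact Nat.pow_le_pow_right (by norm_num) (by nlinarith)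
      have : M ≤ Hw m 1 := by omega
      exact_mod_cast this
    have h4 : 0 < (Hw m 1 : ℝ) := by exact_mod_cast Hw_pos m 1
    rw [div_le_iff₀ h4]
    rw [div_lt_iff₀ hδ₀pos] at hM
    nlinarith
  refine ⟨M + J, fun N hN => ?_⟩
  obtain ⟨N', rfl⟩ : ∃ N', N = N' + J := ⟨N - J, by omega⟩
  have hN' : M ≤ N' := by omega
  have e := avg_eq_Aw L f₁ f₂ j N' J 0
  simp only [zero_add] at e
  rw [e]
  refine norm_avg_le_of fun ω => ?_
  rw [norm_smul, norm_ee, one_mul]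
  have hNI : ∀ n, NI (rr (N' + n)) δ₀ := fun n => (NI_rr (N' + n)).mono (hδM _ (by omega))
  have hb := norm_Aw_sq (R := fun n => RR (N' + n)) (fun n => L (N' + n)) (fun n => rr (N' + n)) hNI hγ
    h₁ h₂ G J (aval L ω)
  set x := Aw (R := fun n => RR (N' + n)) (fun n => L (N' + n)) (fun n => rr (N' + n)) (ee (j / 9)) f₁ f₂ J
    (aval L ω) with hx
  rw [← hg] at hb
  have hD : 0 < ((J : ℝ) + 1) * (3 * G + 2) := by positivity
  have hJδ : (J : ℝ) * ((3 * G + 2) * δ₀) ≤ min (ε ^ 2 / 2) η := by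
    have h1 : ((J : ℝ) + 1) * (3 * G + 2) * δ₀ = min (ε ^ 2 / 2) η := by
      rw [hδ₀]; field_simp
    have h2 : 0 ≤ (3 * (G : ℝ) + 2) * δ₀ := by positivity
    nlinarith
  have t1 : (J : ℝ) * (2 * G * δ₀) ≤ ε ^ 2 / 2 := by
    have h1 : (J : ℝ) * (2 * G * δ₀) ≤ J * ((3 * G + 2) * δ₀) := by
      have : 2 * (G : ℝ) * δ₀ ≤ (3 * G + 2) * δ₀ := by nlinarith
      exact mul_le_mul_of_nonneg_left this (by positivity)
    exact (h1.trans hJδ).trans (min_le_left _ _)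
  have t2 : g ^ J + J * ((3 * G + 2) * δ₀ + 1 / G) ≤ (ε ^ 2 / 2) ^ 2 := by
    have h1 : (J : ℝ) * (1 / G) ≤ η := by
      rw [div_lt_iff₀ hη0] at hG
      rw [mul_one_div, div_le_iff₀ hGpos]
      nlinarith
    have h2 := hJδ.trans (min_le_right _ _)
    have h3 : (ε ^ 2 / 2) ^ 2 = 3 * η := by rw [hη]; ring
    rw [h3, mul_add]
    linarith
  have t3 : √(g ^ J + J * ((3 * G + 2) * δ₀ + 1 / G)) ≤ ε ^ 2 / 2 := by
    rw [← Real.sqrt_sq (show (0:ℝ) ≤ ε ^ 2 / 2 by positivity)]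
    exact Real.sqrt_le_sqrt t2
  have t4 : ‖x‖ ^ 2 ≤ ε ^ 2 := by linarith
  exact (pow_le_pow_iff_left₀ (norm_nonneg _) hε.le (by norm_num)).1 t4

end Pool.TC
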