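import Pool.Agent.Helper591.TC.Base

/-! # DECAY part of MP_e53872_an: averages, one level lemmas (helper757) -/

open scoped ComplexConjugate InnerProductSpace

namespace Pool.TC.Dec

open Pool.TC

section avgs
variable {ι κ : Type} [Fintype ι] [Fintype κ]
variable {V : Type*} [AddCommGroup V] [Module ℝ V]

theorem avg_const [Nonempty ι] (v : V) : avg (fun _ : ι => v) = v := by
  unfold avg
  rw [Finset.sum_const, Finset.card_univ, ← Nat.cast_smul_eq_nsmul ℝ, smul_smul, inv_mul_cancel₀,
    one_smul]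
  exact_mod_cast Fintype.card_ne_zero

theorem avg_add (f g : ι → V) : avg (fun i => f i + g i) = avg f + avg g := by
  unfold avg; rw [Finset.sum_add_distrib, smul_add]

theorem avg_sub (f g : ι → V) : avg (fun i => f i - g i) = avg f - avg g := by
  unfold avg; rw [Finset.sum_sub_distrib, smul_sub]

theorem avg_prod (f : ι × κ → V) : avg f = avg fun i => avg fun k => f (i, k) := by
  unfold avg
  rw [Fintype.sum_prod_type, Fintype.card_prod, Nat.cast_mul, mul_inv, ← smul_smul]
  congr 1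
  rw [Finset.smul_sum]

theorem avg_comm (f : ι → κ → V) : (avg fun i => avg fun k => f i k) = avg fun k => avg fun i => f i k := by
  unfold avg
  simp only [Finset.smul_sum]
  rw [Finset.sum_comm]
  refine Finset.sum_congr rfl fun k _ => Finset.sum_congr rfl fun i _ => ?_
  rw [smul_comm]

theorem avg_congr {f g : ι → V} (h : ∀ i, f i = g i) : avg f = avg g := by
  have : f = g := funext h
  rw [this]

theorem avg_equiv (e : ι ≃ κ) (f : κ → V) : (avg fun i => f (e i)) = avg f := by
  unfold avg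
  rw [Fintype.card_congr e, Equiv.sum_comp e f]

theorem avg_bool (f : Bool → V) : avg f = (1 / 2 : ℝ) • (f true + f false) := by
  unfold avg
  simp [Fintype.sum_bool]

theorem avg_map {W : Type*} [AddCommGroup W] [Module ℝ W] (φ : V →ₗ[ℝ] W) (f : ι → V) :
    φ (avg f) = avg fun i => φ (f i) := by
  unfold avg
  rw [map_smul, map_sum]

end avgs

section ravgs
variable {ι : Type} [Fintype ι]

theorem avg_le_avg {f g : ι → ℝ} (h : ∀ i, f i ≤ g i) : avg f ≤ avg g := by
  unfold avg
  exact smul_le_smul_of_nonneg_left (Finset.sum_le_sum fun i _ => h i) (by positivity)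

theorem avg_le_of [Nonempty ι] {f : ι → ℝ} {c : ℝ} (h : ∀ i, f i ≤ c) : avg f ≤ c := by
  calc avg f ≤ avg (fun _ : ι => c) := avg_le_avg h
    _ = c := avg_const c

theorem avg_nonneg {f : ι → ℝ} (h : ∀ i, 0 ≤ f i) : 0 ≤ avg f := by
  unfold avg
  exact smul_nonneg (by positivity) (Finset.sum_nonneg fun i _ => h i)

theorem avg_mul_left (c : ℝ) (f : ι → ℝ) : (avg fun i => c * f i) = c * avg f := by
  unfold avg
  simp only [smul_eq_mul, ← Finset.mul_sum]
  ring

theorem avg_sq_le {f : ι → ℝ} [Nonempty ι] : (avg f) ^ 2 ≤ avg fun i => f i ^ 2 := by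
  have h : 0 ≤ avg fun i => (f i - avg f) ^ 2 := avg_nonneg fun i => sq_nonneg _
  have h2 : (avg fun i => (f i - avg f) ^ 2) = (avg fun i => f i ^ 2) - (avg f) ^ 2 := by
    have : ∀ i, (f i - avg f) ^ 2 = (f i ^ 2 - (2 * avg f) * f i) + (avg f) ^ 2 := fun i => by ring
    rw [avg_congr this, avg_add, avg_sub, avg_mul_left, avg_const]
    ring
  linarith

variable {V : Type*} [SeminormedAddCommGroup V] [NormedSpace ℝ V]

theorem norm_avg_le (f : ι → V) : ‖avg f‖ ≤ avg fun i => ‖f i‖ := by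
  unfold avg
  rw [norm_smul, smul_eq_mul, Real.norm_of_nonneg (by positivity)]
  exact mul_le_mul_of_nonneg_left (norm_sum_le _ _) (by positivity)

theorem norm_avg_le_of [Nonempty ι] {f : ι → V} {c : ℝ} (h : ∀ i, ‖f i‖ ≤ c) : ‖avg f‖ ≤ c :=
  (norm_avg_le f).trans (avg_le_of h)

theorem norm_avg_sub_le [Nonempty ι] {f g : ι → V} {c : ℝ} (h : ∀ i, ‖f i - g i‖ ≤ c) :
    ‖avg f - avg g‖ ≤ c := by
  rw [← avg_sub]; exact norm_avg_le_of h

theorem norm_avg_sq_le [Nonempty ι] (f : ι → V) : ‖avg f‖ ^ 2 ≤ avg fun i => ‖f i‖ ^ 2 :=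
  (pow_le_pow_left₀ (norm_nonneg _) (norm_avg_le f) 2).trans avg_sq_le

end ravgs

end Pool.TC.Dec
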