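import Pool.Agent.Helper757.TCDecayA

/-! # DECAY part of MP_e53872_an: abstract systems (helper757) -/

open scoped ComplexConjugate InnerProductSpace

namespace Pool.TC.Dec

open Pool.TC

variable {A : Type} [CommRing A] [StarRing A] [Algebra ℂ A] [StarModule ℂ A] [PSys A]

theorem norm_tau (n : ℤ) (a : A) : ‖PSys.tau n a‖ = ‖a‖ := by
  have h : ‖PSys.tau n a‖ ^ 2 = ‖a‖ ^ 2 := by
    rw [norm_sq_def, norm_sq_def, ← map_star, ← map_mul, PSys.E_tau]
  exact (pow_left_inj₀ (norm_nonneg _) (norm_nonneg _) (by norm_num)).1 h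

theorem inner_tau (n : ℤ) (a b : A) : ⟪PSys.tau n a, PSys.tau n b⟫_ℂ = ⟪a, b⟫_ℂ := by
  rw [inner_def, inner_def, ← map_star, ← map_mul, PSys.E_tau]

theorem norm_one_le : ‖(1 : A)‖ ≤ 1 := by
  have h : ‖(1 : A)‖ ^ 2 = 1 := by
    rw [norm_sq_def, star_one, one_mul, PSys.E_one]; simp
  nlinarith [norm_nonneg (1 : A)]

theorem norm_mul_ball {f : A} (hf : f ∈ (PSys.ball : Set A)) (a : A) : ‖f * a‖ ≤ ‖a‖ := by
  have h := PSys.ball_le f hf a
  rw [← norm_sq_def, ← norm_sq_def] at h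
  exact (pow_le_pow_iff_left₀ (norm_nonneg _) (norm_nonneg _) (by norm_num)).1 h

theorem norm_ball {f : A} (hf : f ∈ (PSys.ball : Set A)) : ‖f‖ ≤ 1 := by
  have h := norm_mul_ball hf 1
  rw [mul_one] at h
  exact h.trans norm_one_le

theorem tau_tau (m n : ℤ) (a : A) : PSys.tau m (PSys.tau n a) = PSys.tau (m + n) a :=
  (PSys.tau_add m n a).symm

theorem tau_avg {ι : Type} [Fintype ι] (n : ℤ) (f : ι → A) :
    PSys.tau n (avg f) = avg fun i => PSys.tau n (f i) := by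
  unfold avg
  have h : ∀ (r : ℝ) (x : A), PSys.tau n (r • x) = r • PSys.tau n x := by
    intro r x
    have h1 : r • x = (r : ℂ) • x := rfl
    have h2 : r • PSys.tau n x = (r : ℂ) • PSys.tau n x := rfl
    rw [h1, h2, map_smul]
  rw [h, map_sum]

theorem csmul_avg {ι : Type} [Fintype ι] (c : ℂ) (f : ι → A) :
    c • avg f = avg fun i => c • f i := by
  unfold avg
  rw [smul_comm, Finset.smul_sum]

theorem inner_avg_right {ι : Type} [Fintype ι] (a : A) (f : ι → A) :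
    ⟪a, avg f⟫_ℂ = avg fun i => ⟪a, f i⟫_ℂ := by
  unfold avg
  have h : ∀ (r : ℝ) (x : A), ⟪a, r • x⟫_ℂ = r • ⟪a, x⟫_ℂ := by
    intro r x
    have h1 : r • x = (r : ℂ) • x := rfl
    rw [h1, inner_smul_right]; rfl
  rw [h, inner_sum]

theorem inner_avg_left {ι : Type} [Fintype ι] (a : A) (f : ι → A) :
    ⟪avg f, a⟫_ℂ = avg fun i => ⟪f i, a⟫_ℂ := by
  unfold avg
  have h : ∀ (r : ℝ) (x : A), ⟪r • x, a⟫_ℂ = r • ⟪x, a⟫_ℂ := by
    intro r x
    have h1 : r • x = (r : ℂ) • x := rfl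
    rw [h1, inner_smul_left]
    simp
  rw [h, sum_inner]

end Pool.TC.Dec
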