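import Pool.Agent.Helper757.TCDecayB

/-! # DECAY part of MP_e53872_an: cyclic inequality, near invariance (helper757) -/

open scoped ComplexConjugate InnerProductSpace

namespace Pool.TC.Dec

open Pool.TC

section cyc
variable {H : Type*} [SeminormedAddCommGroup H] [InnerProductSpace ℂ H]

theorem normsq_y (x0 x1 x2 : H) (u : ℂ) (hu : conj u * u = 1) (hu3 : u ^ 2 = conj u) :
    ‖x0 + u • x1 + (u ^ 2) • x2‖ ^ 2 = ‖x0‖ ^ 2 + ‖x1‖ ^ 2 + ‖x2‖ ^ 2 +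
      2 * (u * (⟪x0, x1⟫_ℂ + ⟪x1, x2⟫_ℂ + ⟪x2, x0⟫_ℂ)).re := by
  have hu' : u * conj u = 1 := by rw [mul_comm]; exact hu
  have key : ⟪x0 + u • x1 + (u ^ 2) • x2, x0 + u • x1 + (u ^ 2) • x2⟫_ℂ =
      ⟪x0, x0⟫_ℂ + ⟪x1, x1⟫_ℂ + ⟪x2, x2⟫_ℂ +
      (u * (⟪x0, x1⟫_ℂ + ⟪x1, x2⟫_ℂ + ⟪x2, x0⟫_ℂ) +
        conj (u * (⟪x0, x1⟫_ℂ + ⟪x1, x2⟫_ℂ + ⟪x2, x0⟫_ℂ))) := by
    rw [hu3]
    simp only [inner_add_left, inner_add_right, inner_smul_left, inner_smul_right, map_add, map_mul,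
      inner_conj_symm, Complex.conj_conj]
    have e1 : conj u * conj u = u := by
      have := congrArg conj hu3
      rw [map_pow, Complex.conj_conj, pow_two] at this
      exact this
    have e2 : u * u = conj u := by rw [← pow_two]; exact hu3
    linear_combination (⟪x1, x1⟫_ℂ) * hu + (⟪x2, x2⟫_ℂ) * hu' + (⟪x1, x2⟫_ℂ) * e1 + (⟪x2, x1⟫_ℂ) * e2
  have h2 := congrArg Complex.re key
  simp only [Complex.add_re, Complex.conj_re] at h2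
  have n0 : ∀ x : H, (⟪x, x⟫_ℂ).re = ‖x‖ ^ 2 := fun x => by
    have := inner_self_eq_norm_sq (𝕜 := ℂ) x
    exact this
  rw [n0, n0, n0, n0] at h2
  rw [h2]; ring

/-- `Re (z P) ≤ γ S` on a triangle -/
theorem cyc3 (x0 x1 x2 : H) (z : ℂ) (γ : ℝ) (h0 : z.re ≤ γ)
    (h1 : (z * ⟨-1/2, √3/2⟩).re ≤ γ) (h2 : (z * ⟨-1/2, -(√3/2)⟩).re ≤ γ) :
    (z * (⟪x0, x1⟫_ℂ + ⟪x1, x2⟫_ℂ + ⟪x2, x0⟫_ℂ)).re ≤ γ * (‖x0‖ ^ 2 + ‖x1‖ ^ 2 + ‖x2‖ ^ 2) := by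
  have s3 : √3 * √3 = 3 := Real.mul_self_sqrt (by norm_num)
  set P := ⟪x0, x1⟫_ℂ + ⟪x1, x2⟫_ℂ + ⟪x2, x0⟫_ℂ with hP
  have a0 := normsq_y x0 x1 x2 1 (by simp) (by simp)
  have a1 := normsq_y x0 x1 x2 ⟨-1/2, √3/2⟩
    (by apply Complex.ext <;> simp <;> nlinarith [s3])
    (by rw [pow_two]; apply Complex.ext <;> simp <;> nlinarith [s3])
  have a2 := normsq_y x0 x1 x2 ⟨-1/2, -(√3/2)⟩
    (by apply Complex.ext <;> simp <;> nlinarith [s3])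
    (by rw [pow_two]; apply Complex.ext <;> simp <;> nlinarith [s3])
  rw [← hP] at a0 a1 a2
  set N0 := ‖x0 + (1 : ℂ) • x1 + ((1 : ℂ) ^ 2) • x2‖ ^ 2
  set N1 := ‖x0 + (⟨-1/2, √3/2⟩ : ℂ) • x1 + ((⟨-1/2, √3/2⟩ : ℂ) ^ 2) • x2‖ ^ 2
  set N2 := ‖x0 + (⟨-1/2, -(√3/2)⟩ : ℂ) • x1 + ((⟨-1/2, -(√3/2)⟩ : ℂ) ^ 2) • x2‖ ^ 2
  have p0 : 0 ≤ N0 := by positivity
  have p1 : 0 ≤ N1 := by positivity
  have p2 : 0 ≤ N2 := by positivity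
  simp only [Complex.mul_re, Complex.one_re, Complex.one_im] at a0 a1 a2 h1 h2 ⊢
  have b0 : 0 ≤ (γ - z.re) * N0 := mul_nonneg (by linarith) p0
  have b1 : 0 ≤ (γ - (z.re * (-1/2) - z.im * -(√3/2))) * N1 := mul_nonneg (by linarith) p1
  have b2 : 0 ≤ (γ - (z.re * (-1/2) - z.im * (√3/2))) * N2 := mul_nonneg (by linarith) p2
  rw [a0] at b0
  rw [a1] at b1
  rw [a2] at b2
  set S := ‖x0‖ ^ 2 + ‖x1‖ ^ 2 + ‖x2‖ ^ 2 with hS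
  have id1 : (γ - z.re) * (S + 2 * (1 * P.re - 0 * P.im)) +
      (γ - (z.re * (-1 / 2) - z.im * -(√3 / 2))) * (S + 2 * (-1 / 2 * P.re - √3 / 2 * P.im)) +
      (γ - (z.re * (-1 / 2) - z.im * (√3 / 2))) * (S + 2 * (-1 / 2 * P.re - -(√3 / 2) * P.im)) =
      3 * (γ * S) - 3 * (z.re * P.re - z.im * P.im) := by
    linear_combination (z.im * P.im) * s3
  linarith

/-- the contraction on a triangle -/
theorem contr3 (x0 x1 x2 : H) (ζ : ℂ) (hζ : conj ζ * ζ = 1) (γ : ℝ) (h0 : (ζ ^ 2).re ≤ γ)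
    (h1 : (ζ ^ 2 * (⟨-1/2, √3/2⟩ : ℂ)).re ≤ γ) (h2 : (ζ ^ 2 * (⟨-1/2, -(√3/2)⟩ : ℂ)).re ≤ γ) :
    ‖(1 / 2 : ℂ) • (conj ζ • x0 + ζ • x1)‖ ^ 2 + ‖(1 / 2 : ℂ) • (conj ζ • x1 + ζ • x2)‖ ^ 2 +
      ‖(1 / 2 : ℂ) • (conj ζ • x2 + ζ • x0)‖ ^ 2 ≤
      ((1 + γ) / 2) * (‖x0‖ ^ 2 + ‖x1‖ ^ 2 + ‖x2‖ ^ 2) := by
  have key : ∀ x y : H, ‖(1 / 2 : ℂ) • (conj ζ • x + ζ • y)‖ ^ 2 =
      (1 / 4) * (‖x‖ ^ 2 + ‖y‖ ^ 2) + (1 / 2) * (ζ ^ 2 * ⟪x, y⟫_ℂ).re := by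
    intro x y
    have e1 : ‖(1 / 2 : ℂ) • (conj ζ • x + ζ • y)‖ ^ 2 = (1 / 4) * ‖conj ζ • x + ζ • y‖ ^ 2 := by
      rw [norm_smul, mul_pow]
      norm_num
    have e2 : ⟪conj ζ • x + ζ • y, conj ζ • x + ζ • y⟫_ℂ = ⟪x, x⟫_ℂ + ⟪y, y⟫_ℂ +
        (ζ ^ 2 * ⟪x, y⟫_ℂ + conj (ζ ^ 2 * ⟪x, y⟫_ℂ)) := by
      simp only [inner_add_left, inner_add_right, inner_smul_left, inner_smul_right, map_mul,
        map_pow, inner_conj_symm, Complex.conj_conj]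
      linear_combination (⟪x, x⟫_ℂ + ⟪y, y⟫_ℂ) * hζ
    have e3 := congrArg Complex.re e2
    simp only [Complex.add_re, Complex.conj_re] at e3
    have n0 : ∀ x : H, (⟪x, x⟫_ℂ).re = ‖x‖ ^ 2 := fun x => by
      have := inner_self_eq_norm_sq (𝕜 := ℂ) x
      exact this
    rw [n0, n0, n0] at e3
    rw [e1, e3]; ring
  rw [key, key, key]
  have hc := cyc3 x0 x1 x2 (ζ ^ 2) γ h0 h1 h2
  have : (ζ ^ 2 * (⟪x0, x1⟫_ℂ + ⟪x1, x2⟫_ℂ + ⟪x2, x0⟫_ℂ)).re =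
      (ζ ^ 2 * ⟪x0, x1⟫_ℂ).re + (ζ ^ 2 * ⟪x1, x2⟫_ℂ).re + (ζ ^ 2 * ⟪x2, x0⟫_ℂ).re := by
    rw [mul_add, mul_add, Complex.add_re, Complex.add_re]
  rw [this] at hc
  linarith

end cyc

/-- near invariance of the law `ρ` under the shift by `1` -/
def NI {R : Type} [Fintype R] (ρ : R → ℤ) (δ : ℝ) : Prop :=
  ∀ Φ : ℤ → ℂ, (∀ n, ‖Φ n‖ ≤ 1) →
    ‖(avg fun r => Φ (ρ r + 1)) - (avg fun r => Φ (ρ r))‖ ≤ δ

variable {R : Type} [Fintype R] [Nonempty R] {ρ : R → ℤ} {δ : ℝ}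

theorem NI.nonneg (h : NI ρ δ) : 0 ≤ δ := by
  have := h (fun _ => 0) (by simp)
  exact (norm_nonneg _).trans this

theorem NI.nat (h : NI ρ δ) (Φ : ℤ → ℂ) (hΦ : ∀ n, ‖Φ n‖ ≤ 1) (k : ℕ) :
    ‖(avg fun r => Φ (ρ r + k)) - (avg fun r => Φ (ρ r))‖ ≤ k * δ := by
  induction k with
  | zero => simp
  | succ k ih =>
    have h1 := h (fun n => Φ (n + k)) (fun n => hΦ _)
    have e : (avg fun r => Φ (ρ r + ((k + 1 : ℕ) : ℤ))) = avg fun r => Φ (ρ r + 1 + k) := by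
      refine avg_congr fun r => ?_
      congr 1; push_cast; ring
    rw [e]
    calc _ = ‖((avg fun r => Φ (ρ r + 1 + k)) - avg fun r => Φ (ρ r + k)) +
          ((avg fun r => Φ (ρ r + k)) - avg fun r => Φ (ρ r))‖ := by congr 1; ring
      _ ≤ δ + k * δ := (norm_add_le _ _).trans (add_le_add h1 ih)
      _ = _ := by push_cast; ring

theorem NI.int (h : NI ρ δ) (Φ : ℤ → ℂ) (hΦ : ∀ n, ‖Φ n‖ ≤ 1) (k : ℤ) :
    ‖(avg fun r => Φ (ρ r + k)) - (avg fun r => Φ (ρ r))‖ ≤ |(k : ℝ)| * δ := by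
  obtain ⟨n, rfl | rfl⟩ := k.eq_nat_or_neg
  · have := h.nat Φ hΦ n
    simpa using this
  · have := h.nat (fun m => Φ (m - n)) (fun m => hΦ _) n
    have e1 : (avg fun r => Φ (ρ r + n - n)) = avg fun r => Φ (ρ r) := avg_congr fun r => by
      congr 1; ring
    have e2 : (avg fun r => Φ (ρ r - n)) = avg fun r => Φ (ρ r + -(n : ℤ)) := avg_congr fun r => by
      congr 1
    rw [e1, e2, norm_sub_rev] at this
    simpa using this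

theorem NI.real (h : NI ρ δ) (Φ : ℤ → ℝ) (hΦ : ∀ n, |Φ n| ≤ 1) (k : ℤ) :
    |(avg fun r => Φ (ρ r + k)) - (avg fun r => Φ (ρ r))| ≤ |(k : ℝ)| * δ := by
  have h1 := h.int (fun n => (Φ n : ℂ)) (fun n => by simpa using hΦ n) k
  have e : ∀ f : R → ℝ, (avg fun r => (f r : ℂ)) = ((avg f : ℝ) : ℂ) := by
    intro f
    unfold avg
    rw [← Complex.ofReal_sum, Complex.real_smul, smul_eq_mul, Complex.ofReal_mul]
  rw [e, e, ← Complex.ofReal_sub, Complex.norm_real] at h1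
  exact h1

theorem NI.two (h : NI ρ δ) (Φ : ℤ → ℤ → ℂ) (hΦ : ∀ n m, ‖Φ n m‖ ≤ 1) (k k' : ℤ) :
    ‖(avg fun r => avg fun r' => Φ (ρ r + k) (ρ r' + k')) - (avg fun r => avg fun r' => Φ (ρ r) (ρ r'))‖
      ≤ (|(k : ℝ)| + |(k' : ℝ)|) * δ := by
  have h1 : ‖(avg fun r => avg fun r' => Φ (ρ r + k) (ρ r' + k')) -
      (avg fun r => avg fun r' => Φ (ρ r + k) (ρ r'))‖ ≤ |(k' : ℝ)| * δ :=
    norm_avg_sub_le fun r => h.int (Φ (ρ r + k)) (fun n => hΦ _ _) k'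
  have h2 : ‖(avg fun r => avg fun r' => Φ (ρ r + k) (ρ r')) -
      (avg fun r => avg fun r' => Φ (ρ r) (ρ r'))‖ ≤ |(k : ℝ)| * δ := by
    rw [avg_comm, avg_comm (f := fun r r' => Φ (ρ r) (ρ r'))]
    exact norm_avg_sub_le fun r' => h.int (fun n => Φ n (ρ r')) (fun n => hΦ _ _) k
  calc _ = ‖((avg fun r => avg fun r' => Φ (ρ r + k) (ρ r' + k')) -
      (avg fun r => avg fun r' => Φ (ρ r + k) (ρ r'))) + ((avg fun r => avg fun r' => Φ (ρ r + k) (ρ r')) -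
      (avg fun r => avg fun r' => Φ (ρ r) (ρ r')))‖ := by congr 1; ring
    _ ≤ |(k' : ℝ)| * δ + |(k : ℝ)| * δ := (norm_add_le _ _).trans (add_le_add h1 h2)
    _ = _ := by ring

end Pool.TC.Dec
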