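import Pool.Agent.Helper757.TCDecayC

/-! # DECAY part of MP_e53872_an: the two one-level steps (helper757) -/

open scoped ComplexConjugate InnerProductSpace

namespace Pool.TC.Dec

open Pool.TC

variable {A : Type} [CommRing A] [StarRing A] [Algebra ℂ A] [StarModule ℂ A] [PSys A]

/-- covariance under the common shift -/
def Cov (V : ℤ → ℤ → A) : Prop := ∀ s t x, V (s + x) (t + x) = PSys.tau x (V s t)

/-- window average -/
noncomputable def MV (L : ℤ) (G : ℕ) (V : ℤ → ℤ → A) (s t : ℤ) : A :=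
  avg fun u : Fin G => V (s - 3 * ((u : ℕ) : ℤ) * L) (t + 6 * ((u : ℕ) : ℤ) * L)

/-- processing of a level with `(d, d') = (1, 0)` -/
noncomputable def stepP (ζ : ℂ) (L : ℤ) (G : ℕ) (V : ℤ → ℤ → A) (s t : ℤ) : A :=
  (1 / 2 : ℂ) • (conj ζ • MV L G V s t + ζ • MV L G V (s - L) (t + 2 * L))

/-- processing of a level with `(d, d') = (0, 1)` -/
noncomputable def stepM (ζ : ℂ) (L : ℤ) (G : ℕ) (V : ℤ → ℤ → A) (s t : ℤ) : A :=
  stepP ζ L G V (s + L) (t - 2 * L)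

theorem cov_MV {L : ℤ} {G : ℕ} {V : ℤ → ℤ → A} (h : Cov V) : Cov (MV L G V) := by
  intro s t x
  unfold MV
  rw [tau_avg]
  refine avg_congr fun u => ?_
  rw [← h]
  congr 1 <;> ring

theorem cov_stepP {ζ : ℂ} {L : ℤ} {G : ℕ} {V : ℤ → ℤ → A} (h : Cov V) : Cov (stepP ζ L G V) := by
  intro s t x
  unfold stepP
  rw [map_smul, map_add, map_smul, map_smul, ← cov_MV h, ← cov_MV h]
  congr 3
  congr 1 <;> ring

theorem cov_stepM {ζ : ℂ} {L : ℤ} {G : ℕ} {V : ℤ → ℤ → A} (h : Cov V) : Cov (stepM ζ L G V) := by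
  intro s t x
  unfold stepM
  rw [← cov_stepP h]
  congr 1 <;> ring

theorem norm_MV_le {L : ℤ} {G : ℕ} [NeZero G] {V : ℤ → ℤ → A} (h : ∀ s t, ‖V s t‖ ≤ 1) (s t : ℤ) :
    ‖MV L G V s t‖ ≤ 1 :=
  norm_avg_le_of fun _ => h _ _

theorem norm_comb_le {ζ : ℂ} (hζ : ‖ζ‖ = 1) (x y : A) (hx : ‖x‖ ≤ 1) (hy : ‖y‖ ≤ 1) :
    ‖(1 / 2 : ℂ) • (conj ζ • x + ζ • y)‖ ≤ 1 := by
  rw [norm_smul]
  have h1 : ‖conj ζ • x‖ ≤ 1 := by rw [norm_smul, RCLike.norm_conj, hζ, one_mul]; exact hx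
  have h2 : ‖ζ • y‖ ≤ 1 := by rw [norm_smul, hζ, one_mul]; exact hy
  have h3 := norm_add_le (conj ζ • x) (ζ • y)
  have h4 : ‖(1 / 2 : ℂ)‖ = 1 / 2 := by norm_num
  rw [h4]
  linarith

theorem norm_stepP_le {ζ : ℂ} (hζ : ‖ζ‖ = 1) {L : ℤ} {G : ℕ} [NeZero G] {V : ℤ → ℤ → A}
    (h : ∀ s t, ‖V s t‖ ≤ 1) (s t : ℤ) : ‖stepP ζ L G V s t‖ ≤ 1 :=
  norm_comb_le hζ _ _ (norm_MV_le h _ _) (norm_MV_le h _ _)

theorem norm_stepM_le {ζ : ℂ} (hζ : ‖ζ‖ = 1) {L : ℤ} {G : ℕ} [NeZero G] {V : ℤ → ℤ → A}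
    (h : ∀ s t, ‖V s t‖ ≤ 1) (s t : ℤ) : ‖stepM ζ L G V s t‖ ≤ 1 := norm_stepP_le hζ h _ _

/-! ### Step B: contraction -/

variable {R : Type} [Fintype R] [Nonempty R] {ρ : R → ℤ} {δ : ℝ}

theorem shiftB (hρ : NI ρ δ) {W : ℤ → ℤ → A} (hW : Cov W) (hb : ∀ s t, ‖W s t‖ ≤ 1) (L S T a : ℤ) :
    |(avg fun r => avg fun r' => ‖W (S + 3 * ρ r' * L - a * L) (T + 6 * ρ r * L + 2 * a * L)‖ ^ 2) -
      (avg fun r => avg fun r' => ‖W (S + 3 * ρ r' * L) (T + 6 * ρ r * L)‖ ^ 2)| ≤ |(a : ℝ)| * δ := by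
  have h1 : ∀ r, |(avg fun r' => ‖W (S + 3 * ρ r' * L - a * L) (T + 6 * ρ r * L + 2 * a * L)‖ ^ 2) -
      (avg fun r' => ‖W (S + 3 * ρ r' * L) (T + 6 * ρ r * L)‖ ^ 2)| ≤ |(a : ℝ)| * δ := by
    intro r
    have h2 := hρ.real (fun n => ‖W (S + 3 * n * L) (T + 6 * ρ r * L)‖ ^ 2) (fun n => by
      have := hb (S + 3 * n * L) (T + 6 * ρ r * L)
      rw [abs_of_nonneg (by positivity)]
      exact pow_le_one₀ (norm_nonneg _) this) (-a)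
    have e : (avg fun r' => ‖W (S + 3 * ρ r' * L - a * L) (T + 6 * ρ r * L + 2 * a * L)‖ ^ 2) =
        avg fun r' => ‖W (S + 3 * (ρ r' + -a) * L) (T + 6 * ρ r * L)‖ ^ 2 := by
      refine avg_congr fun r' => ?_
      rw [← norm_tau (2 * a * L) (W (S + 3 * (ρ r' + -a) * L) (T + 6 * ρ r * L)), ← hW]
      congr 3; ring
    rw [e]
    simpa using h2
  rw [← avg_sub, ← Real.norm_eq_abs]
  exact norm_avg_le_of fun r => by rw [Real.norm_eq_abs]; exact h1 r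

theorem MV_shift {L : ℤ} {G : ℕ} [NeZero G] {V : ℤ → ℤ → A} (h : ∀ s t, ‖V s t‖ ≤ 1) (s t : ℤ) :
    ‖MV L G V (s - 3 * L) (t + 6 * L) - MV L G V s t‖ ≤ 2 / G := by
  have hG : (0 : ℝ) < G := by exact_mod_cast Nat.pos_of_ne_zero (NeZero.ne G)
  let f : ℕ → A := fun u => V (s - 3 * (u : ℤ) * L) (t + 6 * (u : ℤ) * L)
  have e : MV L G V (s - 3 * L) (t + 6 * L) - MV L G V s t = (G : ℝ)⁻¹ • (f G - f 0) := by
    rw [← Finset.sum_range_sub f G]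
    unfold MV avg
    rw [← smul_sub, Fintype.card_fin, ← Finset.sum_sub_distrib]
    congr 1
    rw [Finset.sum_range]
    refine Finset.sum_congr rfl fun u _ => ?_
    simp only [f]
    congr 2 <;> push_cast <;> ring
  rw [e, norm_smul, norm_inv, Real.norm_of_nonneg hG.le]
  have h1 : ‖f G - f 0‖ ≤ 2 := (norm_sub_le _ _).trans (by linarith [h (s - 3 * (G : ℤ) * L) (t + 6 * (G : ℤ) * L), h (s - 3 * ((0 : ℕ) : ℤ) * L) (t + 6 * ((0 : ℕ) : ℤ) * L)])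
  rw [div_eq_inv_mul]
  exact mul_le_mul_of_nonneg_left h1 (by positivity)

/-- the good phases -/
structure GoodPh (ζ : ℂ) (γ : ℝ) : Prop where
  unit : conj ζ * ζ = 1
  norm : ‖ζ‖ = 1
  le0 : (ζ ^ 2).re ≤ γ
  le1 : (ζ ^ 2 * (⟨-1/2, √3/2⟩ : ℂ)).re ≤ γ
  le2 : (ζ ^ 2 * (⟨-1/2, -(√3/2)⟩ : ℂ)).re ≤ γ
  lt1 : γ < 1
  gt : -1 ≤ γ

theorem tri_le {ζ : ℂ} {γ : ℝ} (hζ : GoodPh ζ γ) {L : ℤ} {G : ℕ} [NeZero G] {V : ℤ → ℤ → A}
    (h : ∀ s t, ‖V s t‖ ≤ 1) (s t : ℤ) :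
    ‖stepP ζ L G V s t‖ ^ 2 + ‖stepP ζ L G V (s - L) (t + 2 * L)‖ ^ 2 +
      ‖stepP ζ L G V (s - 2 * L) (t + 4 * L)‖ ^ 2 ≤
    ((1 + γ) / 2) * (‖MV L G V s t‖ ^ 2 + ‖MV L G V (s - L) (t + 2 * L)‖ ^ 2 +
      ‖MV L G V (s - 2 * L) (t + 4 * L)‖ ^ 2) + 2 / G := by
  have hc := contr3 (MV L G V s t) (MV L G V (s - L) (t + 2 * L)) (MV L G V (s - 2 * L) (t + 4 * L))
    ζ hζ.unit γ hζ.le0 hζ.le1 hζ.le2
  have e1 : stepP ζ L G V (s - L) (t + 2 * L) = (1 / 2 : ℂ) • (conj ζ • MV L G V (s - L) (t + 2 * L) +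
      ζ • MV L G V (s - 2 * L) (t + 4 * L)) := by
    unfold stepP
    congr 3
    congr 1 <;> ring
  have e2 : stepP ζ L G V (s - 2 * L) (t + 4 * L) = (1 / 2 : ℂ) • (conj ζ • MV L G V (s - 2 * L) (t + 4 * L) +
      ζ • MV L G V (s - 3 * L) (t + 6 * L)) := by
    unfold stepP
    congr 3
    congr 1 <;> ring
  have e0 : stepP ζ L G V s t = (1 / 2 : ℂ) • (conj ζ • MV L G V s t +
      ζ • MV L G V (s - L) (t + 2 * L)) := rfl
  set P2 := stepP ζ L G V (s - 2 * L) (t + 4 * L) with hP2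
  set P2' := (1 / 2 : ℂ) • (conj ζ • MV L G V (s - 2 * L) (t + 4 * L) + ζ • MV L G V s t) with hP2'
  have n2 : ‖P2‖ ≤ 1 := norm_stepP_le hζ.norm h _ _
  have n2' : ‖P2'‖ ≤ 1 := norm_comb_le hζ.norm _ _ (norm_MV_le h _ _) (norm_MV_le h _ _)
  have d : ‖P2 - P2'‖ ≤ 1 / G := by
    have : P2 - P2' = (1 / 2 : ℂ) • (ζ • (MV L G V (s - 3 * L) (t + 6 * L) - MV L G V s t)) := by
      rw [e2, hP2', ← smul_sub, smul_sub ζ]
      congr 1; abel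
    rw [this, norm_smul, norm_smul, hζ.norm, one_mul]
    have h4 : ‖(1 / 2 : ℂ)‖ = 1 / 2 := by norm_num
    rw [h4]
    have := MV_shift (L := L) (G := G) h s t
    calc (1 / 2 : ℝ) * _ ≤ (1 / 2) * (2 / G) := by gcongr
      _ = 1 / G := by ring
  have sq : ‖P2‖ ^ 2 ≤ ‖P2'‖ ^ 2 + 2 / G := by
    have h5 : ‖P2‖ ≤ ‖P2'‖ + 1 / G := by
      have := norm_le_norm_add_norm_sub' P2 P2'
      linarith
    have h6 : ‖P2‖ ^ 2 - ‖P2'‖ ^ 2 = (‖P2‖ - ‖P2'‖) * (‖P2‖ + ‖P2'‖) := by ring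
    have hG : (0 : ℝ) ≤ 1 / G := by positivity
    have h7 : (‖P2‖ - ‖P2'‖) * (‖P2‖ + ‖P2'‖) ≤ (1 / G) * 2 := by
      have hs : 0 ≤ ‖P2‖ + ‖P2'‖ := by positivity
      calc (‖P2‖ - ‖P2'‖) * (‖P2‖ + ‖P2'‖) ≤ (1 / G) * (‖P2‖ + ‖P2'‖) :=
            mul_le_mul_of_nonneg_right (by linarith) hs
        _ ≤ (1 / G) * 2 := mul_le_mul_of_nonneg_left (by linarith) hG
    have h8 : (1 / (G : ℝ)) * 2 = 2 / G := by ring
    linarith
  rw [e0, e1]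
  linarith

theorem stepB (hρ : NI ρ δ) {ζ : ℂ} {γ : ℝ} (hζ : GoodPh ζ γ) {G : ℕ} [NeZero G] {V : ℤ → ℤ → A}
    (hV : Cov V) (h : ∀ s t, ‖V s t‖ ≤ 1) (L S T : ℤ) :
    (avg fun r => avg fun r' => ‖stepP ζ L G V (S + 3 * ρ r' * L) (T + 6 * ρ r * L)‖ ^ 2) ≤
    ((1 + γ) / 2) * (avg fun r => avg fun r' => ‖V (S + 3 * ρ r' * L) (T + 6 * ρ r * L)‖ ^ 2) +
      ((3 * G + 1) * δ + 1 / G) := by
  have hδ := hρ.nonneg
  have hG : (0 : ℝ) < G := by exact_mod_cast Nat.pos_of_ne_zero (NeZero.ne G)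
  set b0 := avg fun r => avg fun r' => ‖V (S + 3 * ρ r' * L) (T + 6 * ρ r * L)‖ ^ 2 with hb0
  set Φ : ℤ → ℝ := fun a => avg fun r => avg fun r' =>
    ‖stepP ζ L G V (S + 3 * ρ r' * L - a * L) (T + 6 * ρ r * L + 2 * a * L)‖ ^ 2 with hΦ
  have s1 := fun a => shiftB hρ (cov_stepP (ζ := ζ) (L := L) (G := G) hV)
    (norm_stepP_le hζ.norm h) L S T a
  have s0 : Φ 0 = avg fun r => avg fun r' => ‖stepP ζ L G V (S + 3 * ρ r' * L) (T + 6 * ρ r * L)‖ ^ 2 := by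
    simp only [hΦ]
    refine avg_congr fun r => avg_congr fun r' => ?_
    congr 3 <;> ring
  rw [← s0] at s1 ⊢
  have s11 : |Φ 1 - Φ 0| ≤ δ := by
    have := s1 1
    have e : |((1 : ℤ) : ℝ)| * δ = δ := by simp
    rw [e] at this
    exact this
  have s12 : |Φ 2 - Φ 0| ≤ 2 * δ := by
    have := s1 2
    rw [show |((2 : ℤ) : ℝ)| = 2 by simp] at this
    exact this
  -- the norms of the window averages
  have e1 : ∀ a : ℤ, 0 ≤ a → a ≤ 2 → (avg fun r => avg fun r' =>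
      ‖MV L G V (S + 3 * ρ r' * L - a * L) (T + 6 * ρ r * L + 2 * a * L)‖ ^ 2) ≤ b0 + 3 * G * δ := by
    intro a ha ha2
    calc _ ≤ avg fun r => avg fun r' => avg fun u : Fin G =>
          ‖V (S + 3 * ρ r' * L - (a + 3 * ((u : ℕ) : ℤ)) * L)
            (T + 6 * ρ r * L + 2 * (a + 3 * ((u : ℕ) : ℤ)) * L)‖ ^ 2 := by
          refine avg_le_avg fun r => avg_le_avg fun r' => ?_
          unfold MV
          refine (norm_avg_sq_le _).trans (le_of_eq (avg_congr fun u => ?_))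
          congr 3 <;> ring
      _ = avg fun u : Fin G => avg fun r => avg fun r' =>
          ‖V (S + 3 * ρ r' * L - (a + 3 * ((u : ℕ) : ℤ)) * L)
            (T + 6 * ρ r * L + 2 * (a + 3 * ((u : ℕ) : ℤ)) * L)‖ ^ 2 := by
          rw [avg_comm]
          rw [avg_congr (fun r => avg_comm _)]
          rw [avg_comm]
          refine avg_congr fun u => ?_
          rw [avg_comm]
      _ ≤ b0 + 3 * G * δ := by
          refine avg_le_of fun u => ?_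
          have h1 := shiftB hρ hV h L S T (a + 3 * ((u : ℕ) : ℤ))
          have h2 := (abs_le.1 h1).2
          have h3 : |((a + 3 * ((u : ℕ) : ℤ) : ℤ) : ℝ)| ≤ 3 * G := by
            have hu := u.2
            have h4 : (0 : ℤ) ≤ a + 3 * ((u : ℕ) : ℤ) := by positivity
            have h5 : a + 3 * ((u : ℕ) : ℤ) ≤ 3 * G := by omega
            rw [abs_of_nonneg (by exact_mod_cast h4)]
            exact_mod_cast h5
          have h6 : |((a + 3 * ((u : ℕ) : ℤ) : ℤ) : ℝ)| * δ ≤ 3 * G * δ :=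
            mul_le_mul_of_nonneg_right h3 hδ
          linarith
  have e2 : Φ 0 + Φ 1 + Φ 2 ≤ ((1 + γ) / 2) * (3 * (b0 + 3 * G * δ)) + 2 / G := by
    have hz : ∀ r r', ‖stepP ζ L G V (S + 3 * ρ r' * L - 0 * L) (T + 6 * ρ r * L + 2 * 0 * L)‖ ^ 2 +
        ‖stepP ζ L G V (S + 3 * ρ r' * L - 1 * L) (T + 6 * ρ r * L + 2 * 1 * L)‖ ^ 2 +
        ‖stepP ζ L G V (S + 3 * ρ r' * L - 2 * L) (T + 6 * ρ r * L + 2 * 2 * L)‖ ^ 2 ≤
        ((1 + γ) / 2) * (‖MV L G V (S + 3 * ρ r' * L - 0 * L) (T + 6 * ρ r * L + 2 * 0 * L)‖ ^ 2 +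
        ‖MV L G V (S + 3 * ρ r' * L - 1 * L) (T + 6 * ρ r * L + 2 * 1 * L)‖ ^ 2 +
        ‖MV L G V (S + 3 * ρ r' * L - 2 * L) (T + 6 * ρ r * L + 2 * 2 * L)‖ ^ 2) + 2 / G := by
      intro r r'
      have := tri_le hζ (L := L) (G := G) h (S + 3 * ρ r' * L) (T + 6 * ρ r * L)
      have w : ∀ x y : ℤ, x - 0 * L = x ∧ y + 2 * 0 * L = y ∧ x - 1 * L = x - L ∧ y + 2 * 1 * L = y + 2 * L
          ∧ y + 2 * 2 * L = y + 4 * L := fun x y => ⟨by ring, by ring, by ring, by ring, by ring⟩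
      obtain ⟨w1, w2, w3, w4, w5⟩ := w (S + 3 * ρ r' * L) (T + 6 * ρ r * L)
      rw [w1, w2, w3, w4, w5]
      exact this
    have h0 : Φ 0 + Φ 1 + Φ 2 = avg fun r => avg fun r' =>
        (‖stepP ζ L G V (S + 3 * ρ r' * L - 0 * L) (T + 6 * ρ r * L + 2 * 0 * L)‖ ^ 2 +
        ‖stepP ζ L G V (S + 3 * ρ r' * L - 1 * L) (T + 6 * ρ r * L + 2 * 1 * L)‖ ^ 2 +
        ‖stepP ζ L G V (S + 3 * ρ r' * L - 2 * L) (T + 6 * ρ r * L + 2 * 2 * L)‖ ^ 2) := by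
      simp only [avg_add, hΦ]
    rw [h0]
    calc _ ≤ avg fun r => avg fun r' => (((1 + γ) / 2) * (‖MV L G V (S + 3 * ρ r' * L - 0 * L) (T + 6 * ρ r * L + 2 * 0 * L)‖ ^ 2 +
        ‖MV L G V (S + 3 * ρ r' * L - 1 * L) (T + 6 * ρ r * L + 2 * 1 * L)‖ ^ 2 +
        ‖MV L G V (S + 3 * ρ r' * L - 2 * L) (T + 6 * ρ r * L + 2 * 2 * L)‖ ^ 2) + 2 / G) :=
          avg_le_avg fun r => avg_le_avg fun r' => hz r r'
      _ = ((1 + γ) / 2) * ((avg fun r => avg fun r' => ‖MV L G V (S + 3 * ρ r' * L - 0 * L) (T + 6 * ρ r * L + 2 * 0 * L)‖ ^ 2) +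
        (avg fun r => avg fun r' => ‖MV L G V (S + 3 * ρ r' * L - 1 * L) (T + 6 * ρ r * L + 2 * 1 * L)‖ ^ 2) +
        (avg fun r => avg fun r' => ‖MV L G V (S + 3 * ρ r' * L - 2 * L) (T + 6 * ρ r * L + 2 * 2 * L)‖ ^ 2)) + 2 / G := by
          simp only [avg_add, avg_mul_left, avg_const]
      _ ≤ _ := by
          have h1 := e1 0 (by norm_num) (by norm_num)
          have h2 := e1 1 (by norm_num) (by norm_num)
          have h3 := e1 2 (by norm_num) (by norm_num)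
          have hg : 0 ≤ (1 + γ) / 2 := by linarith [hζ.gt]
          have := mul_le_mul_of_nonneg_left (add_le_add (add_le_add h1 h2) h3) hg
          linarith
  have a1 := (abs_le.1 s11).1
  have a2 := (abs_le.1 s12).1
  have hg1 : (1 + γ) / 2 ≤ 1 := by linarith [hζ.lt1]
  have h9 : ((1 + γ) / 2) * (3 * G * δ) ≤ 3 * G * δ := by
    have : 0 ≤ 3 * G * δ := by positivity
    exact mul_le_of_le_one_left this hg1
  have h10 : (2 : ℝ) / G / 3 ≤ 1 / G := by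
    rw [div_div, div_le_div_iff₀ (by positivity) hG]; nlinarith
  nlinarith [h9, h10, e2]

theorem stepB' (hρ : NI ρ δ) {ζ : ℂ} {γ : ℝ} (hζ : GoodPh ζ γ) {G : ℕ} [NeZero G] {V : ℤ → ℤ → A}
    (hV : Cov V) (h : ∀ s t, ‖V s t‖ ≤ 1) (L S T : ℤ) :
    (avg fun r => avg fun r' => ‖stepM ζ L G V (S + 3 * ρ r' * L) (T + 6 * ρ r * L)‖ ^ 2) ≤
    ((1 + γ) / 2) * (avg fun r => avg fun r' => ‖V (S + 3 * ρ r' * L) (T + 6 * ρ r * L)‖ ^ 2) +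
      ((3 * G + 2) * δ + 1 / G) := by
  have h1 := stepB hρ hζ (G := G) hV h L S T
  have h2 := shiftB hρ (cov_stepP (ζ := ζ) (L := L) (G := G) hV) (norm_stepP_le hζ.norm h) L S T (-1)
  have e : (avg fun r => avg fun r' => ‖stepM ζ L G V (S + 3 * ρ r' * L) (T + 6 * ρ r * L)‖ ^ 2) =
      avg fun r => avg fun r' => ‖stepP ζ L G V (S + 3 * ρ r' * L - (-1) * L) (T + 6 * ρ r * L + 2 * (-1) * L)‖ ^ 2 := by
    refine avg_congr fun r => avg_congr fun r' => ?_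
    unfold stepM
    congr 3 <;> ring
  rw [e]
  have h3 := (abs_le.1 h2).2
  have h4 : |((-1 : ℤ) : ℝ)| * δ = δ := by norm_num
  rw [h4] at h3
  refine (sub_le_iff_le_add.1 h3).trans ?_
  linarith

end Pool.TC.Dec
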