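import Pool.Agent.Helper757.TCDecayF

/-! # DECAY part of MP_e53872_an: the laws of the stages (helper757) -/

open scoped ComplexConjugate InnerProductSpace

namespace Pool.TC.Dec

open Pool.TC

/-- sample space of the scale and the window variable of level `n` -/
abbrev RR (n : ℕ) : Type := Fin (Q n) × Fin (Hw n (Q n))

/-- the window variable -/
def rr (n : ℕ) (y : RR n) : ℤ := (((y.2 : ℕ) % Hw n ((y.1 : ℕ) + 1) : ℕ) : ℤ)

theorem Q_pos (m : ℕ) : 0 < Q m := by unfold Q; positivity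

theorem Hw_pos (m k : ℕ) : 0 < Hw m k := by unfold Hw; exact pow_pos (Q_pos m) _

instance (m : ℕ) : NeZero (Q m) := ⟨(Q_pos m).ne'⟩
instance (m k : ℕ) : NeZero (Hw m k) := ⟨(Hw_pos m k).ne'⟩

theorem avg_mod {W : Type*} [AddCommGroup W] [Module ℝ W] (k H : ℕ) [NeZero k] [NeZero H] (g : ℕ → W) :
    (avg fun r : Fin (k * H) => g ((r : ℕ) % H)) = avg fun x : Fin H => g x := by
  rw [← avg_equiv (finProdFinEquiv (m := k) (n := H)), avg_prod]
  have : ∀ i : Fin k, (avg fun x : Fin H => g (((finProdFinEquiv (i, x) : Fin (k * H)) : ℕ) % H)) =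
      avg fun x : Fin H => g x := by
    intro i
    refine avg_congr fun x => ?_
    congr 1
    simp only [finProdFinEquiv, Equiv.coe_fn_mk]
    rw [Nat.add_mul_mod_self_left, Nat.mod_eq_of_lt x.2]
  rw [avg_congr this, avg_const]

theorem NI_rr (n : ℕ) : NI (rr n) (2 / Hw n 1) := by
  intro Φ hΦ
  rw [avg_prod, avg_prod]
  refine norm_avg_sub_le fun κ => ?_
  have hdvd : ∃ k, Hw n (Q n) = k * Hw n ((κ : ℕ) + 1) ∧ k ≠ 0 := by
    have hκ := κ.2
    refine ⟨Q n ^ (Q n + 1 - ((κ : ℕ) + 1 + 1)), ?_, (pow_pos (Q_pos n) _).ne'⟩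
    unfold Hw
    rw [← pow_add]
    congr 1; omega
  obtain ⟨k, hk, hk0⟩ := hdvd
  have : NeZero k := ⟨hk0⟩
  set H := Hw n ((κ : ℕ) + 1) with hH
  have hHpos : 0 < H := Hw_pos _ _
  have hHR : (0 : ℝ) < H := by exact_mod_cast hHpos
  have hge : Hw n 1 ≤ H := by
    rw [hH]; unfold Hw
    exact Nat.pow_le_pow_right (Q_pos n) (by omega)
  have key : ∀ g : ℕ → ℂ, (avg fun r : Fin (Hw n (Q n)) => g ((r : ℕ) % H)) = avg fun x : Fin H => g x := by
    intro g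
    have e : ∀ M : ℕ, M = k * H → (avg fun r : Fin M => g ((r : ℕ) % H)) = avg fun x : Fin H => g x := by
      intro M hM
      subst hM
      exact avg_mod k H g
    exact e _ hk
  have e1 := key (fun x => Φ ((x : ℤ) + 1))
  have e2 := key (fun x => Φ (x : ℤ))
  unfold rr
  simp only
  rw [e1, e2]
  have e3 : (avg fun x : Fin H => Φ (((x : ℕ) : ℤ) + 1)) - (avg fun x : Fin H => Φ ((x : ℕ) : ℤ)) =
      (H : ℝ)⁻¹ • (Φ (H : ℤ) - Φ 0) := by
    have := Finset.sum_range_sub (fun i : ℕ => Φ (i : ℤ)) H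
    simp only [Nat.cast_zero] at this
    rw [← this]
    unfold avg
    rw [← smul_sub, Fintype.card_fin, ← Finset.sum_sub_distrib, Finset.sum_range]
    push_cast
    rfl
  rw [e3, norm_smul, norm_inv, Real.norm_of_nonneg hHR.le]
  have h2 : ‖Φ (H : ℤ) - Φ 0‖ ≤ 2 := (norm_sub_le _ _).trans (by linarith [hΦ H, hΦ 0])
  calc (H : ℝ)⁻¹ * ‖Φ (H : ℤ) - Φ 0‖ ≤ (H : ℝ)⁻¹ * 2 := by gcongr
    _ = 2 / H := by ring
    _ ≤ 2 / Hw n 1 := by
      have : (0 : ℝ) < Hw n 1 := by exact_mod_cast Hw_pos n 1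
      gcongr

theorem NI.mono {R : Type} [Fintype R] {ρ : R → ℤ} {δ δ' : ℝ} (h : NI ρ δ) (hd : δ ≤ δ') : NI ρ δ' :=
  fun Φ hΦ => (h Φ hΦ).trans hd

/-! ### peeling off the top level -/

/-- reordering equivalence -/
def e2 (n : ℕ) : Bool × RR n × Om n ≃
    (Fin (Q n) × ((m : Fin n) → Fin (Q m))) × (Bool × (Fin n → Bool)) ×
      (Fin (Hw n (Q n)) × ((m : Fin n) → Fin (Hw m (Q m)))) where
  toFun x := ((x.2.1.1, x.2.2.1), (x.1, x.2.2.2.1), (x.2.1.2, x.2.2.2.2))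
  invFun z := (z.2.1.1, (z.1.1, z.2.2.1), (z.1.2, z.2.1.2, z.2.2.2))
  left_inv _ := rfl
  right_inv _ := rfl

/-- gluing equivalence -/
def e3 (n : ℕ) : (Fin (Q n) × ((m : Fin n) → Fin (Q m))) × (Bool × (Fin n → Bool)) ×
      (Fin (Hw n (Q n)) × ((m : Fin n) → Fin (Hw m (Q m)))) ≃ Om (n + 1) :=
  Equiv.prodCongr (Fin.snocEquiv (fun m : Fin (n + 1) => Fin (Q m)))
    (Equiv.prodCongr (Fin.snocEquiv (fun _ : Fin (n + 1) => Bool))
      (Fin.snocEquiv (fun m : Fin (n + 1) => Fin (Hw m (Q m)))))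

theorem Wd_e (n : ℕ) (d : Bool) (y : RR n) (ω : Om n) :
    Wd (e3 n (e2 n (d, y, ω))) = Wd ω + (if d then 1 else 0) := by
  unfold Wd
  rw [Fin.sum_univ_castSucc]
  simp [e3, e2, Fin.snocEquiv]

theorem aval_e (L : ℕ → ℤ) (n : ℕ) (d : Bool) (y : RR n) (ω : Om n) :
    aval L (e3 n (e2 n (d, y, ω))) = aval L ω + (bv d + 3 * rr n y) * L n := by
  unfold aval dig
  rw [Fin.sum_univ_castSucc]
  simp [e3, e2, Fin.snocEquiv, bv, rr]

theorem avgOm_succ {W : Type*} [AddCommGroup W] [Module ℝ W] (L : ℕ → ℤ) (n : ℕ) (Ψ : ℕ → ℤ → W) :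
    (avg fun ω : Om (n + 1) => Ψ (Wd ω) (aval L ω)) = avg fun d : Bool => avg fun y : RR n =>
      avg fun ω : Om n => Ψ (Wd ω + (if d then 1 else 0)) (aval L ω + (bv d + 3 * rr n y) * L n) := by
  rw [← avg_equiv ((e2 n).trans (e3 n)), avg_prod]
  refine avg_congr fun d => ?_
  rw [avg_prod]
  refine avg_congr fun y => avg_congr fun ω => ?_
  rw [Equiv.trans_apply, Wd_e, aval_e]

end Pool.TC.Dec
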